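import Mathlib

set_option autoImplicit false

namespace Pool.Agent.PackWidth

/-- The vertex set `{0,1}^n` of the unit cube, inside Euclidean `n`-space. -/
def cube (n : ℕ) : Set (EuclideanSpace ℝ (Fin n)) := {x | ∀ i, x i = 0 ∨ x i = 1}

/-- The Euclidean width of a set `C`: the infimum, over all unit vectors `u`, of
`sup_{x ∈ C} ⟨u, x⟩ - inf_{x ∈ C} ⟨u, x⟩`. -/
noncomputable def width {n : ℕ} (C : Set (EuclideanSpace ℝ (Fin n))) : ℝ :=
  ⨅ u : Metric.sphere (0 : EuclideanSpace ℝ (Fin n)) 1,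
    (sSup ((fun x => inner ℝ (u : EuclideanSpace ℝ (Fin n)) x) '' C) -
      sInf ((fun x => inner ℝ (u : EuclideanSpace ℝ (Fin n)) x) '' C))

/-- `P` is a packing: a finite family of pairwise disjoint nonempty subsets of `{0,1}^n`, the
convex hull of each of which has width at least `t`. -/
def IsPacking (n : ℕ) (t : ℝ) (P : Finset (Set (EuclideanSpace ℝ (Fin n)))) : Prop :=
  (∀ A ∈ P, A.Nonempty ∧ A ⊆ cube n ∧ t ≤ width (convexHull ℝ A)) ∧
    (P : Set (Set (EuclideanSpace ℝ (Fin n)))).PairwiseDisjoint id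

/-- `N n t` is the largest number of members of a packing of `{0,1}^n` by sets of width at
least `t`. -/
noncomputable def N (n : ℕ) (t : ℝ) : ℕ :=
  sSup {k : ℕ | ∃ P : Finset (Set (EuclideanSpace ℝ (Fin n))), IsPacking n t P ∧ P.card = k}

end Pool.Agent.PackWidth
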