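import Pool.Agent.PackWidth.Defs

set_option autoImplicit false

open Finset

namespace Pool.Agent.PackWidth

/-! ### The embedding of `F_2^n` -/

/-- the vertex of the cube given by a vector over `ZMod 2` -/
noncomputable def emb {n : ℕ} (v : Fin n → ZMod 2) : EuclideanSpace ℝ (Fin n) :=
  WithLp.toLp 2 (fun i => if v i = 1 then (1 : ℝ) else 0)

lemma emb_apply {n : ℕ} (v : Fin n → ZMod 2) (i : Fin n) :
    emb v i = if v i = 1 then (1 : ℝ) else 0 := rfl

lemma zmod2_cases (a : ZMod 2) : a = 0 ∨ a = 1 := by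
  revert a; decide

lemma emb_injective {n : ℕ} : Function.Injective (emb : (Fin n → ZMod 2) → _) := by
  intro v w h
  funext i
  have hi : emb v i = emb w i := by rw [h]
  rw [emb_apply, emb_apply] at hi
  rcases zmod2_cases (v i) with h1 | h1 <;> rcases zmod2_cases (w i) with h2 | h2 <;>
    rw [h1, h2] at hi ⊢ <;> simp at hi

lemma emb_mem_cube {n : ℕ} (v : Fin n → ZMod 2) : emb v ∈ cube n := by
  intro i
  rw [emb_apply]
  split_ifs
  · right; rfl
  · left; rfl

lemma cube_eq_range {n : ℕ} : cube n = Set.range (emb : (Fin n → ZMod 2) → _) := by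
  ext x
  constructor
  · intro hx
    refine ⟨fun i => if x i = 1 then 1 else 0, ?_⟩
    ext i
    rw [emb_apply]
    rcases hx i with h | h
    · simp [h]
    · simp [h]
  · rintro ⟨v, rfl⟩
    exact emb_mem_cube v

lemma cube_finite (n : ℕ) : (cube n).Finite := by
  rw [cube_eq_range]
  exact Set.finite_range _

lemma cube_ncard (n : ℕ) : (cube n).ncard = 2 ^ n := by
  rw [cube_eq_range, ← Set.image_univ, Set.ncard_image_of_injective _ emb_injective,
    Set.ncard_univ, Nat.card_eq_fintype_card]
  simp [ZMod.card]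

/-! ### Upper bound -/

lemma bdd_inner_image {n : ℕ} (A : Set (EuclideanSpace ℝ (Fin n))) (hA : A.Finite)
    (u : EuclideanSpace ℝ (Fin n)) :
    BddAbove ((fun x => inner ℝ u x) '' (convexHull ℝ A)) ∧
      BddBelow ((fun x => inner ℝ u x) '' (convexHull ℝ A)) := by
  have hc : IsCompact (convexHull ℝ A) := hA.isCompact_convexHull (𝕜 := ℝ)
  have hc' : IsCompact ((fun x => inner ℝ u x) '' (convexHull ℝ A)) :=
    hc.image (by fun_prop)
  exact ⟨hc'.bddAbove, hc'.bddBelow⟩

lemma width_le_of_dir {n : ℕ} (A : Set (EuclideanSpace ℝ (Fin n))) (hA : A.Finite)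
    (hne : A.Nonempty) (u : EuclideanSpace ℝ (Fin n)) (hu : ‖u‖ = 1) :
    width (convexHull ℝ A) ≤
      sSup ((fun x => inner ℝ u x) '' (convexHull ℝ A)) -
        sInf ((fun x => inner ℝ u x) '' (convexHull ℝ A)) := by
  unfold width
  refine ciInf_le (f := fun u : Metric.sphere (0 : EuclideanSpace ℝ (Fin n)) 1 =>
    (sSup ((fun x => inner ℝ (u : EuclideanSpace ℝ (Fin n)) x) '' (convexHull ℝ A)) -
      sInf ((fun x => inner ℝ (u : EuclideanSpace ℝ (Fin n)) x) '' (convexHull ℝ A)))) ?_
    ⟨u, by simp [hu]⟩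
  refine ⟨0, ?_⟩
  rintro _ ⟨w, rfl⟩
  have hb := bdd_inner_image A hA (w : EuclideanSpace ℝ (Fin n))
  have hne' : ((fun x => inner ℝ (w : EuclideanSpace ℝ (Fin n)) x) ''
      (convexHull ℝ A)).Nonempty := (hne.convexHull).image _
  have := csInf_le_csSup hne' hb.2 hb.1
  simp only
  linarith

/-- A set of at most `n` points has width `0`. -/
lemma card_of_width_pos {n : ℕ} (A : Set (EuclideanSpace ℝ (Fin n))) (hA : A.Finite)
    (hne : A.Nonempty) (hw : 0 < width (convexHull ℝ A)) : n + 1 ≤ A.ncard := by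
  by_contra hlt
  push Not at hlt
  obtain ⟨a0, ha0⟩ := hne
  -- the direction space
  set B : Set (EuclideanSpace ℝ (Fin n)) := (fun a => a - a0) '' (A \ {a0}) with hB
  have hBfin : B.Finite := (hA.subset Set.sdiff_subset).image _
  have hBcard : B.ncard + 1 ≤ A.ncard := by
    have h1 : B.ncard ≤ (A \ {a0}).ncard := Set.ncard_image_le (hA.subset Set.sdiff_subset)
    have h2 : (A \ {a0}).ncard + 1 = A.ncard := Set.ncard_sdiff_singleton_add_one ha0 hA
    omega
  set W : Submodule ℝ (EuclideanSpace ℝ (Fin n)) := Submodule.span ℝ B with hW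
  have hWrank : Module.finrank ℝ W < n := by
    have h1 : Module.finrank ℝ W ≤ B.ncard := by
      have : Fintype B := hBfin.fintype
      have := finrank_span_le_card (R := ℝ) B
      rw [Set.ncard_eq_toFinset_card']
      exact this
    omega
  have hWne : Wᗮ ≠ ⊥ := by
    intro hbot
    have hWtop : W = ⊤ := by
      rwa [Submodule.orthogonal_eq_bot_iff] at hbot
    rw [hWtop, finrank_top, finrank_euclideanSpace, Fintype.card_fin] at hWrank
    exact lt_irrefl _ hWrank
  obtain ⟨w, hwW, hw0⟩ := Submodule.exists_mem_ne_zero_of_ne_bot hWne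
  set u : EuclideanSpace ℝ (Fin n) := (‖w‖)⁻¹ • w with hu
  have hunorm : ‖u‖ = 1 := norm_smul_inv_norm hw0
  have huW : u ∈ Wᗮ := Submodule.smul_mem _ _ hwW
  have hconst : ∀ a ∈ A, inner ℝ u a = inner ℝ u a0 := by
    intro a ha
    by_cases haa : a = a0
    · rw [haa]
    · have hmem : a - a0 ∈ W := Submodule.subset_span ⟨a, ⟨ha, haa⟩, rfl⟩
      have : inner ℝ u (a - a0) = 0 := by
        rw [real_inner_comm]
        exact (Submodule.mem_orthogonal _ _).1 huW _ hmem
      rw [inner_sub_right] at this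
      linarith
  have himg : (fun x => inner ℝ u x) '' (convexHull ℝ A) = {inner ℝ u a0} := by
    have hsub : convexHull ℝ A ⊆ {x | inner ℝ u x = inner ℝ u a0} := by
      refine convexHull_min (fun a ha => hconst a ha) ?_
      have : IsLinearMap ℝ (fun x : EuclideanSpace ℝ (Fin n) => inner ℝ u x) :=
        { map_add := fun x y => inner_add_right _ _ _
          map_smul := fun c x => inner_smul_right _ _ _ }
      exact convex_hyperplane this _
    apply Set.Subset.antisymm
    · rintro _ ⟨x, hx, rfl⟩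
      exact hsub hx
    · rintro _ rfl
      exact ⟨a0, subset_convexHull ℝ A ha0, rfl⟩
  have := width_le_of_dir A hA ⟨a0, ha0⟩ u hunorm
  rw [himg, csSup_singleton, csInf_singleton, sub_self] at this
  linarith

lemma packing_card_bound {n : ℕ} {t : ℝ} (ht : 0 < t)
    (P : Finset (Set (EuclideanSpace ℝ (Fin n)))) (hP : IsPacking n t P) :
    P.card * (n + 1) ≤ 2 ^ n := by
  classical
  have hfin : ∀ A ∈ P, A.Finite := fun A hA => (cube_finite n).subset (hP.1 A hA).2.1
  have h1 : ∀ A ∈ P, n + 1 ≤ A.ncard := fun A hA =>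
    card_of_width_pos A (hfin A hA) (hP.1 A hA).1 (lt_of_lt_of_le ht (hP.1 A hA).2.2)
  have h2 : ∑ A ∈ P, A.ncard ≤ (cube n).ncard := by
    have hbi : (⋃ A ∈ P, A).ncard = ∑ A ∈ P, A.ncard := by
      have hd : (P : Set (Set (EuclideanSpace ℝ (Fin n)))).PairwiseDisjoint id := hP.2
      have hFin : ∀ A ∈ P, (id A : Set _).Finite := hfin
      clear h1
      induction P using Finset.induction_on with
      | empty => simp
      | insert B Q hBQ ih =>
        have hdisj : Disjoint B (⋃ A ∈ Q, A) := by
          rw [Set.disjoint_iUnion₂_right]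
          intro A hA
          have hne : B ≠ A := fun h => hBQ (h ▸ hA)
          exact hd (Finset.mem_coe.2 (Finset.mem_insert_self _ _))
            (Finset.mem_coe.2 (Finset.mem_insert_of_mem hA)) hne
        have hfB : B.Finite := hfin B (Finset.mem_insert_self _ _)
        have hfQ : (⋃ A ∈ Q, A).Finite := Set.Finite.biUnion (Finset.finite_toSet Q)
            (fun A hA => hfin A (Finset.mem_insert_of_mem hA))
        have hdQ : (Q : Set (Set (EuclideanSpace ℝ (Fin n)))).PairwiseDisjoint id :=
          hd.subset (by intro x hx; exact Finset.mem_insert_of_mem hx)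
        rw [Finset.set_biUnion_insert, Finset.sum_insert hBQ,
          Set.ncard_union_eq hdisj hfB hfQ]
        rw [ih ⟨fun A hA => hP.1 A (Finset.mem_insert_of_mem hA), hdQ⟩
          (fun A hA => hfin A (Finset.mem_insert_of_mem hA)) hdQ
          (fun A hA => hfin A (Finset.mem_insert_of_mem hA))]
    rw [← hbi]
    exact Set.ncard_le_ncard (Set.iUnion₂_subset fun A hA => (hP.1 A hA).2.1) (cube_finite n)
  calc P.card * (n + 1) = ∑ A ∈ P, (n + 1) := by rw [Finset.sum_const, smul_eq_mul]
    _ ≤ ∑ A ∈ P, A.ncard := Finset.sum_le_sum h1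
    _ ≤ (cube n).ncard := h2
    _ = 2 ^ n := cube_ncard n

lemma setOf_bddAbove {n : ℕ} {t : ℝ} (ht : 0 < t) :
    BddAbove {k : ℕ | ∃ P : Finset (Set (EuclideanSpace ℝ (Fin n))),
      IsPacking n t P ∧ P.card = k} := by
  refine ⟨2 ^ n, ?_⟩
  rintro k ⟨P, hP, rfl⟩
  have := packing_card_bound ht P hP
  nlinarith [Nat.zero_le (P.card * n)]

lemma setOf_nonempty {n : ℕ} {t : ℝ} :
    {k : ℕ | ∃ P : Finset (Set (EuclideanSpace ℝ (Fin n))),
      IsPacking n t P ∧ P.card = k}.Nonempty := by
  refine ⟨0, ∅, ⟨by simp, by simp⟩, by simp⟩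

lemma N_upper {n : ℕ} {t : ℝ} (ht : 0 < t) : N n t * (n + 1) ≤ 2 ^ n := by
  obtain ⟨P, hP, hk⟩ := Nat.sSup_mem (setOf_nonempty (n := n) (t := t)) (setOf_bddAbove ht)
  have := packing_card_bound ht P hP
  unfold N
  rw [← hk]
  exact this

/-! ### Lower bound -/

/-- the nontrivial character of `ZMod 2` -/
noncomputable def chi (a : ZMod 2) : ℝ := if a = 1 then -1 else 1

lemma chi_add (a b : ZMod 2) : chi (a + b) = chi a * chi b := by
  rcases zmod2_cases a with rfl | rfl <;> rcases zmod2_cases b with rfl | rfl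
  · simp [chi]
  · simp [chi]
  · simp [chi]
  · have : (1 : ZMod 2) + 1 = 0 := by decide
    rw [this]; simp [chi]

lemma chi_sq (a : ZMod 2) : chi a * chi a = 1 := by
  rcases zmod2_cases a with rfl | rfl <;> simp [chi]

lemma emb_eq_chi {n : ℕ} (v : Fin n → ZMod 2) (i : Fin n) : emb v i = (1 - chi (v i)) / 2 := by
  rw [emb_apply]
  unfold chi
  rcases zmod2_cases (v i) with h | h <;> simp [h]

lemma sum_chi {k : ℕ} (c : Fin k → ZMod 2) (hc : c ≠ 0) :
    ∑ a : Fin k → ZMod 2, chi (∑ j, a j * c j) = 0 := by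
  obtain ⟨j, hj⟩ : ∃ j, c j ≠ 0 := by
    by_contra h
    push Not at h
    exact hc (funext h)
  have hj1 : c j = 1 := (zmod2_cases (c j)).resolve_left hj
  have h1 := Equiv.sum_comp (Equiv.addRight (Pi.single j (1 : ZMod 2) : Fin k → ZMod 2))
    (fun a : Fin k → ZMod 2 => chi (∑ j, a j * c j))
  have h2 : ∀ a : Fin k → ZMod 2,
      chi (∑ i, (a + (Pi.single j (1 : ZMod 2) : Fin k → ZMod 2)) i * c i) =
        - chi (∑ i, a i * c i) := by
    intro a
    have : ∑ i, (a + (Pi.single j (1 : ZMod 2) : Fin k → ZMod 2)) i * c i =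
        ∑ i, a i * c i + 1 := by
      simp only [Pi.add_apply, add_mul, Finset.sum_add_distrib]
      congr 1
      rw [Finset.sum_eq_single j]
      · simp [hj1]
      · intro b _ hb
        simp [Pi.single_eq_of_ne hb]
      · simp
    rw [this, chi_add]
    simp [chi]
  simp only [Equiv.coe_addRight] at h1
  rw [Finset.sum_congr rfl (fun a _ => h2 a), Finset.sum_neg_distrib] at h1
  linarith

/-- The linear code with columns `b i`. -/
def code {n k : ℕ} (b : Fin n → Fin k → ZMod 2) : (Fin k → ZMod 2) →+ (Fin n → ZMod 2) where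
  toFun a := fun i => ∑ j, a j * b i j
  map_zero' := by funext i; simp
  map_add' a a' := by
    funext i
    simp [add_mul, Finset.sum_add_distrib]

lemma code_apply {n k : ℕ} (b : Fin n → Fin k → ZMod 2) (a : Fin k → ZMod 2) (i : Fin n) :
    code b a i = ∑ j, a j * b i j := rfl

/-- Every coset of the code has width at least one. -/
lemma one_le_width {n k : ℕ} (hn : 0 < n) (b : Fin n → Fin k → ZMod 2)
    (hb0 : ∀ i, b i ≠ 0) (hbinj : Function.Injective b) (v : Fin n → ZMod 2)
    (A : Set (EuclideanSpace ℝ (Fin n))) (hA : A.Finite)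
    (hv : ∀ a : Fin k → ZMod 2, emb (v + code b a) ∈ A) :
    1 ≤ width (convexHull ℝ A) := by
  unfold width
  have hnonempty : Nonempty (Metric.sphere (0 : EuclideanSpace ℝ (Fin n)) 1) := by
    have : Nontrivial (EuclideanSpace ℝ (Fin n)) := by
      refine ⟨EuclideanSpace.single ⟨0, hn⟩ 1, 0, ?_⟩
      intro h
      have := congrArg norm h
      simp at this
    exact (NormedSpace.sphere_nonempty.2 zero_le_one).to_subtype
  refine le_ciInf ?_
  rintro ⟨u, hu⟩
  have hunorm : ‖u‖ = 1 := by simpa using hu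
  simp only
  obtain ⟨hba, hbb⟩ := bdd_inner_image A hA u
  set hi := sSup ((fun x => inner ℝ u x) '' (convexHull ℝ A)) with hhi
  set lo := sInf ((fun x => inner ℝ u x) '' (convexHull ℝ A)) with hlo
  set m : ℝ := ∑ i, u i / 2 with hm
  set g : (Fin k → ZMod 2) → ℝ := fun a => ∑ i, u i * chi (v i) * chi (code b a i) with hg
  have hf : ∀ a, inner ℝ u (emb (v + code b a)) = m - g a / 2 := by
    intro a
    rw [hm, hg]
    simp only [PiLp.inner_apply, emb_eq_chi, Pi.add_apply, chi_add]
    rw [Finset.sum_div, ← Finset.sum_sub_distrib]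
    refine Finset.sum_congr rfl fun i _ => ?_
    simp
    ring
  have hle : ∀ a, m - g a / 2 ≤ hi := fun a => by
    rw [← hf]; exact le_csSup hba ⟨_, subset_convexHull ℝ A (hv a), rfl⟩
  have hge : ∀ a, lo ≤ m - g a / 2 := fun a => by
    rw [← hf]; exact csInf_le hbb ⟨_, subset_convexHull ℝ A (hv a), rfl⟩
  have hsum0 : ∑ a, g a = 0 := by
    rw [hg, Finset.sum_comm]
    refine Finset.sum_eq_zero fun i _ => ?_
    rw [← Finset.mul_sum]
    have := sum_chi (b i) (hb0 i)
    simp only [code_apply]
    rw [this, mul_zero]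
  have hcard : (Finset.univ : Finset (Fin k → ZMod 2)).card = 2 ^ k := by
    simp [ZMod.card]
  have hsum2 : ∑ a, g a * g a = 2 ^ k := by
    have h1 : ∀ a, g a * g a = ∑ i, ∑ j, (u i * chi (v i) * (u j * chi (v j))) *
        chi (∑ l, a l * (b i + b j) l) := by
      intro a
      rw [hg]
      simp only
      rw [Finset.sum_mul_sum]
      refine Finset.sum_congr rfl fun i _ => Finset.sum_congr rfl fun j _ => ?_
      have : ∑ l, a l * (b i + b j) l = code b a i + code b a j := by
        rw [code_apply, code_apply, ← Finset.sum_add_distrib]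
        refine Finset.sum_congr rfl fun l _ => ?_
        simp [mul_add]
      rw [this, chi_add]
      ring
    rw [Finset.sum_congr rfl (fun a _ => h1 a), Finset.sum_comm]
    have h2 : ∀ i : Fin n, ∑ a : Fin k → ZMod 2, ∑ j,
        (u i * chi (v i) * (u j * chi (v j))) * chi (∑ l, a l * (b i + b j) l) =
        2 ^ k * (u i * u i) := by
      intro i
      rw [Finset.sum_comm, Finset.sum_eq_single i]
      · rw [← Finset.mul_sum]
        have h3 : ∀ a : Fin k → ZMod 2, chi (∑ l, a l * (b i + b i) l) = 1 := by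
          intro a
          have : b i + b i = 0 := by
            funext l
            rw [Pi.add_apply]
            rcases zmod2_cases (b i l) with h | h <;> rw [h]
            · simp
            · have h11 : (1 : ZMod 2) + 1 = 0 := by decide
              simpa using h11
          rw [this]
          simp [chi]
        rw [Finset.sum_congr rfl (fun a _ => h3 a), Finset.sum_const, hcard]
        have := chi_sq (v i)
        rw [nsmul_eq_mul, mul_one]
        push_cast
        linear_combination (u i * u i * 2 ^ k) * this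
      · intro j _ hj
        rw [← Finset.mul_sum, sum_chi, mul_zero]
        intro h
        apply hj
        apply hbinj
        funext l
        have := congrFun h l
        rw [Pi.add_apply, Pi.zero_apply] at this
        rcases zmod2_cases (b i l) with h1 | h1 <;> rcases zmod2_cases (b j l) with h2 | h2 <;>
          rw [h1, h2] at this ⊢ <;> simp at this
      · simp
    rw [Finset.sum_congr rfl (fun i _ => h2 i), ← Finset.mul_sum]
    have h4 : ∑ i, u i * u i = 1 := by
      have := EuclideanSpace.norm_sq_eq u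
      rw [hunorm] at this
      simp only [Real.norm_eq_abs, sq_abs] at this
      rw [one_pow] at this
      rw [this]
      exact Finset.sum_congr rfl fun i _ => (sq (u i)).symm
    rw [h4, mul_one]
  have hpos : (0 : ℝ) < 2 ^ k := by positivity
  have hmain : 0 ≤ ∑ a : Fin k → ZMod 2, (m - g a / 2 - lo) * (hi - (m - g a / 2)) :=
    Finset.sum_nonneg fun a _ => mul_nonneg (by linarith [hge a]) (by linarith [hle a])
  have hexp : ∑ a : Fin k → ZMod 2, (m - g a / 2 - lo) * (hi - (m - g a / 2)) =
      2 ^ k * ((m - lo) * (hi - m)) - 2 ^ k / 4 := by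
    have : ∀ a, (m - g a / 2 - lo) * (hi - (m - g a / 2)) =
        (m - lo) * (hi - m) + ((m - lo) / 2 - (hi - m) / 2) * g a - g a * g a / 4 := by
      intro a; ring
    rw [Finset.sum_congr rfl (fun a _ => this a), Finset.sum_sub_distrib,
      Finset.sum_add_distrib, Finset.sum_const, hcard, nsmul_eq_mul,
      ← Finset.mul_sum (s := Finset.univ) (f := g), hsum0, ← Finset.sum_div, hsum2]
    push_cast
    ring
  rw [hexp] at hmain
  have h14 : 1 / 4 ≤ (m - lo) * (hi - m) := by
    by_contra hcon
    push Not at hcon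
    have : 2 ^ k * ((m - lo) * (hi - m)) < 2 ^ k * (1 / 4) := mul_lt_mul_of_pos_left hcon hpos
    linarith
  have hlohi : lo ≤ hi := by
    have := (hge 0).trans (hle 0)
    exact this
  nlinarith [sq_nonneg ((m - lo) - (hi - m)), sq_nonneg (hi - lo - 1)]

/-- The packing by cosets of the code. -/
lemma N_lower_aux {n k : ℕ} (hn : 0 < n) {t : ℝ} (ht : 0 < t) (ht1 : t ≤ 1)
    (b : Fin n → Fin k → ZMod 2)
    (hb0 : ∀ i, b i ≠ 0) (hbinj : Function.Injective b) : 2 ^ n ≤ N n t * 2 ^ k := by
  classical
  set H : AddSubgroup (Fin n → ZMod 2) := (code b).range with hH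
  -- the coset family
  set S : ((Fin n → ZMod 2) ⧸ H) → Set (EuclideanSpace ℝ (Fin n)) :=
    fun q => emb '' {w | (QuotientAddGroup.mk w : (Fin n → ZMod 2) ⧸ H) = q} with hS
  have hSne : ∀ q, (S q).Nonempty := by
    intro q
    obtain ⟨w, rfl⟩ := QuotientAddGroup.mk_surjective q
    exact ⟨emb w, w, rfl, rfl⟩
  have hSdisj : ∀ q q', q ≠ q' → Disjoint (S q) (S q') := by
    intro q q' hqq
    rw [Set.disjoint_left]
    rintro _ ⟨w, hw, rfl⟩ ⟨w', hw', heq⟩
    have := emb_injective heq
    subst this
    exact hqq (hw.symm.trans hw')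
  have hSinj : Function.Injective S := by
    intro q q' h
    by_contra hne
    have := hSdisj q q' hne
    rw [h, disjoint_self] at this
    exact (hSne q').ne_empty this
  have : Fintype ((Fin n → ZMod 2) ⧸ H) := Fintype.ofFinite _
  set P : Finset (Set (EuclideanSpace ℝ (Fin n))) := Finset.univ.image S with hP
  have hPcard : P.card = Fintype.card ((Fin n → ZMod 2) ⧸ H) := by
    rw [hP, Finset.card_image_of_injective _ hSinj, Finset.card_univ]
  have hpack : IsPacking n t P := by
    refine ⟨?_, ?_⟩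
    · intro A hA
      obtain ⟨q, -, rfl⟩ := Finset.mem_image.1 hA
      have hsub : S q ⊆ cube n := by
        rintro _ ⟨w, -, rfl⟩
        exact emb_mem_cube w
      refine ⟨hSne q, hsub, ?_⟩
      obtain ⟨v, rfl⟩ := QuotientAddGroup.mk_surjective q
      refine ht1.trans (one_le_width hn b hb0 hbinj v _ ((cube_finite n).subset hsub) ?_)
      intro a
      refine ⟨v + code b a, ?_, rfl⟩
      rw [Set.mem_ofPred_eq]
      symm
      rw [QuotientAddGroup.eq]
      exact ⟨a, by simp⟩
    · intro A hA B hB hne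
      obtain ⟨q, -, rfl⟩ := Finset.mem_image.1 (Finset.mem_coe.1 hA)
      obtain ⟨q', -, rfl⟩ := Finset.mem_image.1 (Finset.mem_coe.1 hB)
      exact hSdisj q q' (fun h => hne (by rw [h]))
  have hle : Fintype.card ((Fin n → ZMod 2) ⧸ H) ≤ N n t := by
    rw [← hPcard]
    exact le_csSup (setOf_bddAbove ht) ⟨P, hpack, rfl⟩
  have hHcard : Nat.card H ≤ 2 ^ k := by
    have h1 : Nat.card H ≤ Nat.card (Fin k → ZMod 2) :=
      Nat.card_le_card_of_surjective (fun a => (⟨code b a, a, rfl⟩ : H)) (by
        rintro ⟨w, a, rfl⟩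
        exact ⟨a, rfl⟩)
    have h2 : Nat.card (Fin k → ZMod 2) = 2 ^ k := by
      rw [Nat.card_eq_fintype_card]; simp [ZMod.card]
    rwa [h2] at h1
  have hVcard : Nat.card (Fin n → ZMod 2) = 2 ^ n := by
    rw [Nat.card_eq_fintype_card]; simp [ZMod.card]
  have hprod := AddSubgroup.card_eq_card_quotient_mul_card_addSubgroup H
  rw [hVcard, Nat.card_eq_fintype_card] at hprod
  rw [hprod]
  exact Nat.mul_le_mul hle hHcard

lemma N_lower {n k : ℕ} (hn : 0 < n) {t : ℝ} (ht : 0 < t) (ht1 : t ≤ 1) (hk : n < 2 ^ k) :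
    2 ^ n ≤ N n t * 2 ^ k := by
  set b : Fin n → Fin k → ZMod 2 :=
    fun i j => if (i.val + 1).testBit j.val then 1 else 0 with hb
  have hbit : ∀ i i' : Fin n, b i = b i' → i.val + 1 = i'.val + 1 := by
    intro i i' h
    apply Nat.eq_of_testBit_eq
    intro l
    by_cases hl : l < k
    · have := congrFun h ⟨l, hl⟩
      rw [hb] at this
      simp only at this
      by_cases h1 : (i.val + 1).testBit l <;> by_cases h2 : (i'.val + 1).testBit l <;>
        simp [h1, h2] at this ⊢
    · push Not at hl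
      have hpow : 2 ^ k ≤ 2 ^ l := Nat.pow_le_pow_right (by norm_num) hl
      have e1 : (i.val + 1).testBit l = false :=
        Nat.testBit_lt_two_pow (by omega)
      have e2 : (i'.val + 1).testBit l = false :=
        Nat.testBit_lt_two_pow (by omega)
      rw [e1, e2]
  refine N_lower_aux hn ht ht1 b ?_ ?_
  · intro i h
    have hz : i.val + 1 = 0 := by
      apply Nat.eq_of_testBit_eq
      intro l
      by_cases hl : l < k
      · have := congrFun h ⟨l, hl⟩
        rw [hb] at this
        simp only [Pi.zero_apply] at this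
        by_cases h1 : (i.val + 1).testBit l
        · simp [h1] at this
        · simp [h1]
      · push Not at hl
        have hpow : 2 ^ k ≤ 2 ^ l := Nat.pow_le_pow_right (by norm_num) hl
        have e1 : (i.val + 1).testBit l = false :=
          Nat.testBit_lt_two_pow (by omega)
        rw [e1]; simp
    omega
  · intro i i' h
    have := hbit i i' h
    exact Fin.ext (by omega)

/-- **Order of magnitude of `N(n,t)`.** For every fixed `t ∈ (0,1]` one has
`N(n,t) = Θ(2^n / n)`; explicitly `2^n / (2n) ≤ N(n,t) ≤ 2^n / (n+1)` for all `n ≥ 1`, and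
`N(n,t) = 2^n / (n+1)` exactly whenever `n + 1` is a power of two. (The first clause records
that the supremum defining `N n t` is a maximum.) -/
theorem main (t : ℝ) (ht0 : 0 < t) (ht1 : t ≤ 1) :
    (∀ n : ℕ, IsGreatest {k : ℕ | ∃ P : Finset (Set (EuclideanSpace ℝ (Fin n))),
      IsPacking n t P ∧ P.card = k} (N n t)) ∧
    ((fun n : ℕ => (N n t : ℝ)) =Θ[Filter.atTop] fun n : ℕ => (2 : ℝ) ^ n / n) ∧
    (∀ n : ℕ, 1 ≤ n → (2 : ℝ) ^ n / (2 * n) ≤ N n t ∧ (N n t : ℝ) ≤ 2 ^ n / (n + 1)) ∧
    (∀ n k : ℕ, 1 ≤ n → n + 1 = 2 ^ k → (N n t : ℝ) = 2 ^ n / (n + 1)) := by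
  have hbounds : ∀ n : ℕ, 1 ≤ n →
      (2 : ℝ) ^ n / (2 * n) ≤ N n t ∧ (N n t : ℝ) ≤ 2 ^ n / (n + 1) := by
    intro n hn
    have hn0 : (0 : ℝ) < n := by exact_mod_cast hn
    constructor
    · have hk1 : 2 ^ Nat.log 2 n ≤ n := Nat.pow_log_le_self 2 (by omega)
      have hk2 : n < 2 ^ (Nat.log 2 n + 1) := Nat.lt_pow_succ_log_self (by norm_num) n
      have h := N_lower (t := t) (by omega : 0 < n) ht0 ht1 hk2
      have h' : 2 ^ n ≤ N n t * (2 * n) := by
        refine h.trans (Nat.mul_le_mul_left _ ?_)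
        rw [pow_succ]
        omega
      rw [div_le_iff₀ (by positivity)]
      exact_mod_cast h'
    · have h := N_upper (n := n) ht0
      rw [le_div_iff₀ (by positivity)]
      exact_mod_cast h
  refine ⟨fun n => ⟨Nat.sSup_mem setOf_nonempty (setOf_bddAbove ht0),
    fun k hk => le_csSup (setOf_bddAbove ht0) hk⟩, ?_, hbounds, ?_⟩
  · constructor
    · refine Asymptotics.IsBigO.of_bound 1 ?_
      filter_upwards [Filter.eventually_ge_atTop 1] with n hn
      have hn0 : (0 : ℝ) < n := by exact_mod_cast hn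
      rw [one_mul, Real.norm_of_nonneg (by positivity), Real.norm_of_nonneg (by positivity)]
      refine (hbounds n hn).2.trans ?_
      exact div_le_div_of_nonneg_left (by positivity) hn0 (by linarith)
    · refine Asymptotics.IsBigO.of_bound 2 ?_
      filter_upwards [Filter.eventually_ge_atTop 1] with n hn
      have hn0 : (0 : ℝ) < n := by exact_mod_cast hn
      rw [Real.norm_of_nonneg (by positivity), Real.norm_of_nonneg (by positivity)]
      have h := (hbounds n hn).1
      have : (2 : ℝ) ^ n / n = 2 * (2 ^ n / (2 * n)) := by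
        field_simp
      rw [this]
      linarith
  · intro n k hn hk
    refine le_antisymm (hbounds n hn).2 ?_
    have h := N_lower (t := t) (k := k) (by omega : 0 < n) ht0 ht1 (by omega)
    rw [← hk] at h
    rw [div_le_iff₀ (by positivity)]
    exact_mod_cast h

end Pool.Agent.PackWidth
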